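import Pool.Agent.ETCP.Four
import Pool.Agent.ETCC.Struct
import Pool.Agent.ESL.PRODREC
import Pool.Agent.ESL.ISOC
import Pool.Agent.ESL.J2R

/-!
# Product lemma and small value groups for quaternionic structures (helper29)
-/

set_option autoImplicit false
set_option linter.unusedSimpArgs false

namespace Pool.Agent.ETCP

open QS
open Pool.Agent.Helper58.PLine (QData)

/-- `S` is a direct product of two nontrivial quaternionic structures. -/
def Decomp (S : QStruct) : Prop :=
  ∃ A B : QStruct, A.neg = 1 ∧ B.neg = 1 ∧ 2 ≤ Nat.card A.G ∧ 2 ≤ Nat.card B.G ∧ Iso (prod A B) S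

theorem two_le_card {G : Type} [Group G] [Finite G] (H : Subgroup G) (h : ∃ x ∈ H, x ≠ 1) :
    2 ≤ Nat.card H := by
  obtain ⟨x, hx, hx1⟩ := h
  have : 1 < Nat.card H := by
    rw [Finite.one_lt_card_iff_nontrivial]
    exact ⟨⟨x, hx⟩, 1, fun h => hx1 (congrArg Subtype.val h)⟩
  omega

theorem decomp_of_subgroups (S : QStruct) [Finite S.G] (hneg : S.neg = 1) (A B : Subgroup S.G)
    (hAB : IsCompl A B) (hA : ∃ x ∈ A, x ≠ 1) (hB : ∃ x ∈ B, x ≠ 1)
    (hq : ∀ a ∈ A, ∀ b ∈ B, ∀ a' ∈ A, ∀ b' ∈ B, S.q (a * b) (a' * b') = S.zero ↔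
      S.q a a' = S.zero ∧ S.q b b' = S.zero) : Decomp S := by
  obtain ⟨SA, SB, f, g, h1, h2, -, -, h5⟩ :=
    ESL.prodrec_proof ESL.isoc_proof S hneg A B hAB hq
  refine ⟨SA, SB, h1, h2, ?_, ?_, h5⟩
  · rw [Nat.card_congr f.toEquiv]; exact two_le_card A hA
  · rw [Nat.card_congr g.toEquiv]; exact two_le_card B hB

/-- degenerate structures decompose -/
theorem decomp_of_degenerate (S : QStruct) [Finite S.G] (hneg : S.neg = 1) {r g : S.G}
    (hr : r ≠ 1) (hr0 : ∀ b, S.q r b = S.zero) (hg1 : g ≠ 1) (hgr : g ≠ r) : Decomp S := by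
  obtain ⟨B, hB⟩ := ESL.J2RX.exists_compl S.exp_two (Subgroup.zpowers r)
  have hz : ∀ x ∈ Subgroup.zpowers r, x = 1 ∨ x = r := by
    rintro x ⟨n, rfl⟩
    rcases Int.even_or_odd' n with ⟨k, rfl | rfl⟩
    · left
      show r ^ (2 * k) = 1
      rw [zpow_mul, zpow_two, S.exp_two, one_zpow]
    · right
      show r ^ (2 * k + 1) = r
      rw [zpow_add, zpow_mul, zpow_two, S.exp_two, one_zpow, one_mul, zpow_one]
  have hx0 : ∀ x ∈ Subgroup.zpowers r, ∀ b, S.q x b = S.zero := by
    intro x hx b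
    rcases hz x hx with rfl | rfl
    · rw [S.qs2, S.q_one]
    · exact hr0 b
  have hmul : ∀ a ∈ Subgroup.zpowers r, ∀ b x, S.q (a * b) x = S.q b x := by
    intro a ha b x
    rw [S.qs2, S.qs2 b, mul_comm, S.qs3, mul_comm b a, mul_assoc, S.exp_two, mul_one, S.qs2]
    exact hx0 a ha x
  apply decomp_of_subgroups S hneg (Subgroup.zpowers r) B hB.symm ⟨r, Subgroup.mem_zpowers r, hr⟩
  · -- `B` is not trivial
    by_contra hno
    push Not at hno
    have hgt : g ∈ Subgroup.zpowers r ⊔ B := by rw [hB.symm.sup_eq_top]; trivial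
    obtain ⟨a, ha, b, hb, hab⟩ := Subgroup.mem_sup.1 hgt
    rw [hno b hb, mul_one] at hab
    rcases hz a ha with h | h
    · exact hg1 (by rw [← hab, h])
    · exact hgr (by rw [← hab, h])
  · intro a ha b _ a' ha' b' _
    rw [hmul a ha, S.qs2 b, hmul a' ha', S.qs2 b']
    constructor
    · intro h
      exact ⟨hx0 a ha a', h⟩
    · exact fun h => h.2

section
variable (S : QStruct)

instance instMod : Module (ZMod 2) (Additive S.G) :=
  AddCommGroup.zmodModule (n := 2) (fun x => by
    rw [two_nsmul]; exact S.exp_two (Additive.toMul x))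

theorem zspan (S : QStruct) (A : Submodule (ZMod 2) (Additive S.G)) :
    ∃ H : Subgroup S.G, ∀ x, x ∈ H ↔ Additive.ofMul x ∈ A := by
  refine ⟨{ carrier := {x | Additive.ofMul x ∈ A}
            mul_mem' := fun {a b} ha hb => ?_
            one_mem' := ?_
            inv_mem' := fun {a} ha => ?_ }, fun x => Iff.rfl⟩
  · show Additive.ofMul (a * b) ∈ A
    rw [ofMul_mul]; exact A.add_mem ha hb
  · show Additive.ofMul (1 : S.G) ∈ A
    rw [ofMul_one]; exact A.zero_mem
  · show Additive.ofMul (a⁻¹) ∈ A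
    rw [ofMul_inv]; exact A.neg_mem ha

/-- the product lemma -/
theorem decomp_of_ctx [Finite S.G] (hneg : S.neg = 1) {p v : S.G} (hp : p ≠ 1) (hv1 : v ≠ 1)
    (hvp : v ≠ p) (hv : S.q p v = S.zero)
    (hcomm : ∀ g h, S.q p g = S.zero → S.q p h = S.zero → S.q g h = S.zero)
    (hfull : ∀ w, ∃ z s, S.q (v * p) z = S.zero ∧ S.q v s = S.zero ∧ w = z * s) : Decomp S := by
  classical
  by_cases hnd : ∀ a, (∀ b, S.q a b = S.zero) → a = 1
  swap
  · push Not at hnd
    obtain ⟨r, hr0, hr⟩ := hnd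
    by_cases h : v = r
    · exact decomp_of_degenerate S hneg hr hr0 hp (fun e => hvp (h.trans e.symm))
    · exact decomp_of_degenerate S hneg hr hr0 hv1 h
  have hvp1 : v * p ≠ 1 := fun h => hvp ((eq_iff_mul S v p).2 h)
  let D : QData (Additive S.G) S.Q := ETC.toData S
  have he : D.e = 0 := by
    show Additive.ofMul S.neg = 0
    rw [hneg]; rfl
  have X : Ctx D (Additive.ofMul p) (Additive.ofMul v) (Additive.ofMul (v * p)) := by
    refine ⟨he, ?_, hv, fun g h hg hh => hcomm _ _ hg hh, ?_⟩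
    · rw [ofMul_mul]; exact (eo (by abel_nf <;> simp only [ch2, ch3, ch4, ch5, ch6, add_zero, zero_add]))
    · intro w
      obtain ⟨z, s, h1, h2, h3⟩ := hfull (Additive.toMul w)
      exact ⟨Additive.ofMul z, Additive.ofMul s, h1, h2, h3⟩
  have hfin : Finite (Additive S.G) := (inferInstance : Finite S.G)
  obtain ⟨A, B, hAB, hc1, hc2, hvA, hvB⟩ := X.decomp (by
    intro x hx
    exact hnd (Additive.toMul x) (fun b => hx (Additive.ofMul b)))
  obtain ⟨HA, hHA⟩ := zspan S A
  obtain ⟨HB, hHB⟩ := zspan S B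
  apply decomp_of_subgroups S hneg HA HB
  · constructor
    · rw [Subgroup.disjoint_def]
      intro x h1 h2
      have := (Submodule.disjoint_def.1 hAB.disjoint) _ ((hHA x).1 h1) ((hHB x).1 h2)
      exact this
    · rw [codisjoint_iff, eq_top_iff]
      intro x _
      have : Additive.ofMul x ∈ A ⊔ B := by rw [hAB.sup_eq_top]; trivial
      obtain ⟨a, ha, b, hb, hab⟩ := Submodule.mem_sup.1 this
      rw [Subgroup.mem_sup]
      exact ⟨Additive.toMul a, (hHA _).2 ha, Additive.toMul b, (hHB _).2 hb, hab⟩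
  · exact ⟨v, (hHA v).2 hvA, hv1⟩
  · exact ⟨v * p, (hHB _).2 hvB, hvp1⟩
  · intro a ha b hb a' ha' b' hb'
    have ha2 := (hHA a).1 ha
    have hb2 := (hHB b).1 hb
    have ha2' := (hHA a').1 ha'
    have hb2' := (hHB b').1 hb'
    constructor
    · intro h
      exact hc2 _ ha2 _ hb2 _ ha2' _ hb2' h
    · rintro ⟨h1, h2⟩
      have k1 : C D (Additive.ofMul a) (Additive.ofMul a') := h1
      have k2 : C D (Additive.ofMul b) (Additive.ofMul b') := h2
      exact (k1.add (hc1 _ ha2 _ hb2')).add' ((hc1 _ ha2' _ hb2).symm.add k2)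

/-- small value groups -/
theorem small [Finite S.G] (hneg : S.neg = 1) {p : S.G} (hp : p ≠ 1)
    (h4 : Nat.card {x // S.q p x = S.zero} ≤ 4) : (∃ T : QStruct, Iso S (ext T)) ∨ Decomp S := by
  classical
  have hpp : S.q p p = S.zero := by
    have := S.qs1 p
    rwa [hneg, one_mul] at this
  have hp1 : S.q p 1 = S.zero := S.q_one p
  have hbir : ∀ r : S.G, r ≠ 1 → (∀ x, S.q r x = S.zero → x = 1 ∨ x = r) →
      ∃ T : QStruct, Iso S (ext T) := by
    intro r hr hx
    have hr' : ETCC.Rig S r := by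
      intro z hz
      rw [hneg, one_mul]
      exact hx z hz
    refine ETCC.ext_of_bir (z := r) ⟨hr, by rw [hneg]; exact hr, hr', ?_⟩
    rw [hneg, one_mul]
    exact hr'
  by_cases hrig : ∀ x, S.q p x = S.zero → x = 1 ∨ x = p
  · exact Or.inl (hbir p hp hrig)
  push Not at hrig
  obtain ⟨v, hv, hv1, hvp⟩ := hrig
  have hvp1 : v * p ≠ 1 := fun h => hvp ((eq_iff_mul S v p).2 h)
  have hvpv : v * p ≠ v := fun h => hp (mul_eq_left.1 h)
  have hvpp : v * p ≠ p := fun h => hv1 (mul_eq_right.1 h)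
  have hvp0 : S.q p (v * p) = S.zero := by
    rw [← S.qs3, hv, hpp]
  have hfour : ∀ x, S.q p x = S.zero → x = 1 ∨ x = v ∨ x = v * p ∨ x = p := by
    intro x hx
    by_contra hno
    push Not at hno
    obtain ⟨n1, n2, n3, n4⟩ := hno
    have := Fintype.ofFinite S.G
    have hs : ({1, v, v * p, p, x} : Finset S.G) ⊆ Finset.univ.filter (fun x => S.q p x = S.zero) := by
      intro y hy
      rw [Finset.mem_filter]
      refine ⟨Finset.mem_univ _, ?_⟩
      simp only [Finset.mem_insert, Finset.mem_singleton] at hy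
      rcases hy with rfl | rfl | rfl | rfl | rfl
      · exact hp1
      · exact hv
      · exact hvp0
      · exact hpp
      · exact hx
    have h5 : ({1, v, v * p, p, x} : Finset S.G).card = 5 := by
      rw [Finset.card_insert_of_notMem, Finset.card_insert_of_notMem,
        Finset.card_insert_of_notMem, Finset.card_insert_of_notMem, Finset.card_singleton]
      · rw [Finset.mem_singleton]; exact n4.symm
      · simp only [Finset.mem_insert, Finset.mem_singleton, not_or]
        exact ⟨hvpp, n3.symm⟩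
      · simp only [Finset.mem_insert, Finset.mem_singleton, not_or]
        exact ⟨hvpv.symm, hvp, n2.symm⟩
      · simp only [Finset.mem_insert, Finset.mem_singleton, not_or]
        exact ⟨hv1.symm, hvp1.symm, hp.symm, n1.symm⟩
    have h6 := Finset.card_le_card hs
    rw [h5, ← Fintype.card_subtype, ← Nat.card_eq_fintype_card] at h6
    omega
  let D : QData (Additive S.G) S.Q := ETC.toData S
  have he : D.e = 0 := by
    show Additive.ofMul S.neg = 0
    rw [hneg]; rfl
  have X : Four D (Additive.ofMul p) (Additive.ofMul v) (Additive.ofMul (v * p)) := by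
    refine ⟨he, ?_, hv, ?_⟩
    · rw [ofMul_mul]; exact (eo (by abel_nf <;> simp only [ch2, ch3, ch4, ch5, ch6, add_zero, zero_add]))
    · intro x hx
      exact hfour (Additive.toMul x) hx
  by_cases hfull : ∀ w, ∃ z s, S.q (v * p) z = S.zero ∧ S.q v s = S.zero ∧ w = z * s
  · right
    refine decomp_of_ctx S hneg hp hv1 hvp hv ?_ hfull
    intro g h hg hh
    exact X.comm (g := Additive.ofMul g) (h := Additive.ofMul h) hg hh
  · left
    push Not at hfull
    obtain ⟨y, hy⟩ := hfull
    obtain ⟨r, hr, hx⟩ := X.exists_rigid (y := Additive.ofMul y) (by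
      rintro ⟨z, s, h1, h2, h3⟩
      exact hy (Additive.toMul z) (Additive.toMul s) h1 h2 h3)
    exact hbir (Additive.toMul r) hr (fun x h => hx (Additive.ofMul x) h)

end

end Pool.Agent.ETCP
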