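import Pool.Agent.ETC.ToData
import Pool.Agent.ETC.Witt3

/-!
# Product lemma for quaternionic structures with `-1 = 1`: basic facts (helper29)

Commuting relation `C x y` iff `q (x, y) = 0` in a quaternionic data structure with `e = 0`.
-/

set_option autoImplicit false
set_option linter.unusedSimpArgs false

namespace Pool.Agent.ETCP

open Pool.Agent.Helper58.PLine (QData)

variable {V Q : Type} [AddCommGroup V] [Module (ZMod 2) V]

theorem ch2 (x : V) : (2 : ℤ) • x = 0 := by
  rw [two_zsmul, ZModModule.add_self]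

theorem ch3 (x : V) : (3 : ℤ) • x = x := by
  rw [show (3 : ℤ) = 2 + 1 by norm_num, add_smul, ch2, zero_add, one_smul]

theorem ch4 (x : V) : (4 : ℤ) • x = 0 := by
  rw [show (4 : ℤ) = 2 + 2 by norm_num, add_smul, ch2, zero_add]

theorem ch5 (x : V) : (5 : ℤ) • x = x := by
  rw [show (5 : ℤ) = 4 + 1 by norm_num, add_smul, ch4, zero_add, one_smul]

theorem ch6 (x : V) : (6 : ℤ) • x = 0 := by
  rw [show (6 : ℤ) = 4 + 2 by norm_num, add_smul, ch4, ch2, zero_add]

/-- identities in an `F_2`-space -/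
theorem eo {x y : V} (h : x + y = 0) : x = y :=
  Pool.Agent.Helper58.PLine.eq_of_add_eq_zero h

variable (S : QData V Q)

/-- commuting elements: `q (x, y) = 0` -/
def C (x y : V) : Prop := S.q x y = S.z

variable {S}

theorem C.symm {x y : V} (h : C S x y) : C S y x := by
  unfold C at *
  rw [S.symm, h]

theorem C.add {x y y' : V} (h : C S x y) (h' : C S x y') : C S x (y + y') :=
  (S.add x y y').1 (by rw [h, h'])

theorem C.add' {x x' y : V} (h : C S x y) (h' : C S x' y) : C S (x + x') y :=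
  (h.symm.add h'.symm).symm

theorem C.zero (x : V) : C S x 0 := S.q_zero x

theorem C.zero' (x : V) : C S 0 x := (C.zero x).symm

theorem C.of_eq {x y x' y' : V} (h : C S x y) (hx : x = x') (hy : y = y') : C S x' y' := by
  rw [← hx, ← hy]; exact h

theorem C.self (he : S.e = 0) (x : V) : C S x x := by
  have := S.diag x
  rwa [he, add_zero] at this

theorem q_eq {x y y' : V} (h : C S x (y + y')) : S.q x y = S.q x y' := (S.add x y y').2 h

theorem q_eq_iff {x y y' : V} : S.q x y = S.q x y' ↔ C S x (y + y') := S.add x y y'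

theorem q_eq' {x x' y : V} (h : C S (x + x') y) : S.q x y = S.q x' y := by
  rw [S.symm x, S.symm x']
  exact q_eq h.symm

theorem q_eq'_iff {x x' y : V} : S.q x y = S.q x' y ↔ C S (x + x') y := by
  rw [S.symm x, S.symm x', q_eq_iff]
  exact ⟨C.symm, C.symm⟩

/-- linkage -/
theorem link {x y x' y' : V} (h : S.q x y = S.q x' y') :
    ∃ t, C S x (y + t) ∧ C S x' (y' + t) ∧ C S (x + x') t := by
  obtain ⟨t, h1, h2⟩ := S.link _ _ _ _ h
  exact ⟨t, q_eq_iff.1 h1, q_eq_iff.1 h2, q_eq'_iff.1 (by rw [← h1, ← h2, h])⟩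

variable (S) in
/-- `V_p` is commutative, `v + v' = p` in `V_p`, and `V_v + V_v' = V` -/
structure Ctx (p v v' : V) : Prop where
  he : S.e = 0
  hp : v + v' = p
  hv : C S p v
  comm : ∀ g h, C S p g → C S p h → C S g h
  full : ∀ w, ∃ z s, C S v' z ∧ C S v s ∧ w = z + s

namespace Ctx

variable {p v v' : V} (X : Ctx S p v v')
include X

theorem pp : C S p p := C.self X.he p

theorem hv' : C S p v' := (X.hv.add X.pp).of_eq rfl (by rw [← X.hp]; exact (eo (by abel_nf <;> simp only [ch2, ch3, ch4, ch5, ch6, add_zero, zero_add])))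

theorem swap : Ctx S p v' v where
  he := X.he
  hp := by rw [← X.hp, add_comm]
  hv := X.hv'
  comm := X.comm
  full := by
    intro w
    obtain ⟨z, s, h1, h2, h3⟩ := X.full w
    exact ⟨s, z, h2, h1, by rw [h3, add_comm]⟩

/-- `X_(z+s) = X_z ∩ X_s` -/
theorem split {z s h : V} (hz : C S v' z) (hs : C S v s) (hh : C S p h) (hc : C S h (z + s)) :
    C S h z ∧ C S h s := by
  have e1 : S.q h z = S.q h s := q_eq hc
  have e2 : S.q (h + v') z = S.q h z := q_eq' (hz.of_eq (eo (by abel_nf <;> simp only [ch2, ch3, ch4, ch5, ch6, add_zero, zero_add])) rfl)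
  have e3 : S.q (h + v) s = S.q h s := q_eq' (hs.of_eq (eo (by abel_nf <;> simp only [ch2, ch3, ch4, ch5, ch6, add_zero, zero_add])) rfl)
  obtain ⟨t, h1, h2, h3⟩ := link (e2.trans (e1.trans e3.symm))
  have h4 : C S p t := h3.of_eq (by rw [← X.hp]; exact (eo (by abel_nf <;> simp only [ch2, ch3, ch4, ch5, ch6, add_zero, zero_add]))) rfl
  have h5 : C S (h + v') t := X.comm _ _ (hh.add X.hv') h4
  have h6 : C S (h + v') z := (h1.add h5).of_eq rfl (eo (by abel_nf <;> simp only [ch2, ch3, ch4, ch5, ch6, add_zero, zero_add]))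
  have h7 : C S h z := (h6.add' hz).of_eq (eo (by abel_nf <;> simp only [ch2, ch3, ch4, ch5, ch6, add_zero, zero_add])) rfl
  exact ⟨h7, (hc.add h7).of_eq rfl (eo (by abel_nf <;> simp only [ch2, ch3, ch4, ch5, ch6, add_zero, zero_add]))⟩

/-- there is a common shift in `V_p` -/
theorem shift {z s : V} (hz : C S v' z) (hs : C S v s) : ∃ h, C S p h ∧ C S (z + h) (s + h) := by
  have e1 : S.q (p + z + s) v' = S.q s v' := by
    apply q_eq'
    exact (X.hv'.add' hz.symm).of_eq (eo (by abel_nf <;> simp only [ch2, ch3, ch4, ch5, ch6, add_zero, zero_add])) rfl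
  have e2 : S.q s v' = S.q p s := by
    rw [S.symm s]
    exact q_eq' ((hs).of_eq (by rw [← X.hp]; exact (eo (by abel_nf <;> simp only [ch2, ch3, ch4, ch5, ch6, add_zero, zero_add]))) rfl)
  obtain ⟨t, h1, h2, h3⟩ := link (e1.trans e2)
  refine ⟨s + t, h2, ?_⟩
  have h4 : C S (z + s) t := h3.of_eq (eo (by abel_nf <;> simp only [ch2, ch3, ch4, ch5, ch6, add_zero, zero_add])) rfl
  exact (h4.add' (C.self X.he t)).of_eq (eo (by abel_nf <;> simp only [ch2, ch3, ch4, ch5, ch6, add_zero, zero_add])) (eo (by abel_nf <;> simp only [ch2, ch3, ch4, ch5, ch6, add_zero, zero_add]))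

/-- values of `q` on `V_p × V_v'` and on `V_p × V_v` only meet in `0` -/
theorem meet {z s h h' : V} (hz : C S v' z) (hs : C S v s) (hh : C S p h) (hh' : C S p h')
    (e : S.q h z = S.q h' s) : C S h z ∧ C S h' s := by
  obtain ⟨t, h1, h2, h3⟩ := link e
  obtain ⟨z1, s1, hz1, hs1, rfl⟩ := X.full t
  obtain ⟨a1, a2⟩ := X.split (hz.add hz1) hs1 hh (h1.of_eq rfl (eo (by abel_nf <;> simp only [ch2, ch3, ch4, ch5, ch6, add_zero, zero_add])))
  obtain ⟨a3, a4⟩ := X.split hz1 (hs.add hs1) hh' (h2.of_eq rfl (eo (by abel_nf <;> simp only [ch2, ch3, ch4, ch5, ch6, add_zero, zero_add])))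
  obtain ⟨a5, a6⟩ := X.split hz1 hs1 (hh.add hh') h3
  have a7 : C S h z1 := (a5.add' a3).of_eq (eo (by abel_nf <;> simp only [ch2, ch3, ch4, ch5, ch6, add_zero, zero_add])) rfl
  have a8 : C S h' s1 := (a6.add' a2).of_eq (eo (by abel_nf <;> simp only [ch2, ch3, ch4, ch5, ch6, add_zero, zero_add])) rfl
  exact ⟨(a1.add a7).of_eq rfl (eo (by abel_nf <;> simp only [ch2, ch3, ch4, ch5, ch6, add_zero, zero_add])), (a4.add a8).of_eq rfl (eo (by abel_nf <;> simp only [ch2, ch3, ch4, ch5, ch6, add_zero, zero_add]))⟩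

/-- `X_z + X_s = V_p` -/
theorem sum {z s g : V} (hz : C S v' z) (hs : C S v s) (hg : C S p g) :
    ∃ a b, C S p a ∧ C S p b ∧ C S a z ∧ C S b s ∧ g = a + b := by
  have hvg : C S v g := X.comm _ _ X.hv hg
  obtain ⟨h0, hh0, c0⟩ := X.shift hz hs
  obtain ⟨hg', hhg, cg⟩ := X.shift hz (hs.add hvg)
  have hk : C S p (h0 + g + hg') := (hh0.add hg).add hhg
  -- `r = z + s`
  have r0 : C S (z + s) (s + h0) :=
    (c0.add' (C.self X.he (s + h0))).of_eq (eo (by abel_nf <;> simp only [ch2, ch3, ch4, ch5, ch6, add_zero, zero_add])) rfl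
  have rg : C S (z + s + g) (s + g + hg') :=
    (cg.add' (C.self X.he (s + g + hg'))).of_eq (eo (by abel_nf <;> simp only [ch2, ch3, ch4, ch5, ch6, add_zero, zero_add])) rfl
  have e1 : S.q (z + s) (s + g + hg') = S.q g (s + g + hg') :=
    q_eq' rg
  have e2 : S.q g (s + g + hg') = S.q g s := by
    apply q_eq
    exact ((C.self X.he g).add (X.comm _ _ hg hhg)).of_eq rfl (eo (by abel_nf <;> simp only [ch2, ch3, ch4, ch5, ch6, add_zero, zero_add]))
  have e3 : S.q (z + s) (h0 + g + hg') = S.q (z + s) (s + g + hg') := by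
    apply q_eq
    exact r0.of_eq rfl (eo (by abel_nf <;> simp only [ch2, ch3, ch4, ch5, ch6, add_zero, zero_add]))
  have e4 : S.q g s = S.q (h0 + g + hg') (z + s) := by
    rw [S.symm (h0 + g + hg'), e3, e1, e2]
  obtain ⟨t, h1, h2, h3⟩ := link e4
  obtain ⟨z1, s1, hz1, hs1, rfl⟩ := X.full t
  obtain ⟨a1, a2⟩ := X.split hz1 (hs.add hs1) hg (h1.of_eq rfl (eo (by abel_nf <;> simp only [ch2, ch3, ch4, ch5, ch6, add_zero, zero_add])))
  obtain ⟨a3, a4⟩ := X.split (hz.add hz1) (hs.add hs1) hk (h2.of_eq rfl (eo (by abel_nf <;> simp only [ch2, ch3, ch4, ch5, ch6, add_zero, zero_add])))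
  obtain ⟨a5, a6⟩ := X.split hz1 hs1 (hg.add hk) h3
  refine ⟨h0 + g + hg', g + (h0 + g + hg'), hk, hg.add hk, ?_, ?_, (eo (by abel_nf <;> simp only [ch2, ch3, ch4, ch5, ch6, add_zero, zero_add]))⟩
  · have b1 : C S (h0 + g + hg') z1 := (a5.add' a1).of_eq (eo (by abel_nf <;> simp only [ch2, ch3, ch4, ch5, ch6, add_zero, zero_add])) rfl
    exact (a3.add b1).of_eq rfl (eo (by abel_nf <;> simp only [ch2, ch3, ch4, ch5, ch6, add_zero, zero_add]))
  · have b2 : C S (g + (h0 + g + hg')) (s + s1) := a2.add' a4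
    exact (b2.add a6).of_eq rfl (eo (by abel_nf <;> simp only [ch2, ch3, ch4, ch5, ch6, add_zero, zero_add]))

/-- uniqueness of the shifts modulo `X_s`, `X_z` -/
theorem uniq {z s h h' g g' : V} (hz : C S v' z) (hs : C S v s) (hh : C S p h) (hh' : C S p h')
    (hg : C S p g) (hg' : C S p g') (c1 : C S (z + h') (s + h)) (c2 : C S (z + g') (s + g)) :
    C S (h + g) z ∧ C S (h' + g') s := by
  obtain ⟨b, a, hb, ha, hbz, has, e1⟩ := X.sum hz hs (hh.add hg)
  obtain ⟨b', a', hb', ha', hbz', has', e2⟩ := X.sum hz hs (hh'.add hg')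
  have c3 : C S (z + g') (s + g + b) :=
    c2.add (hbz.symm.add' (X.comm _ _ hg' hb))
  have e3 : s + g + b = s + h + a := by
    have : b = h + g + a := by rw [e1]; exact (eo (by abel_nf <;> simp only [ch2, ch3, ch4, ch5, ch6, add_zero, zero_add]))
    rw [this]; exact (eo (by abel_nf <;> simp only [ch2, ch3, ch4, ch5, ch6, add_zero, zero_add]))
  have c4 : C S a' (s + h + a) := (has'.add (X.comm _ _ ha' hh)).add (X.comm _ _ ha' ha)
  have e4 : z + g' + a' = z + h' + b' := by
    have : a' = h' + g' + b' := by rw [e2]; exact (eo (by abel_nf <;> simp only [ch2, ch3, ch4, ch5, ch6, add_zero, zero_add]))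
    rw [this]; exact (eo (by abel_nf <;> simp only [ch2, ch3, ch4, ch5, ch6, add_zero, zero_add]))
  rw [e3] at c3
  have c5 : C S (z + h' + b') (s + h + a) := by
    rw [← e4]; exact c3.add' c4
  have k1 : S.q (z + h') (s + h + a) = S.q b' (s + h + a) := q_eq' c5
  have k2 : S.q b' (s + h + a) = S.q b' s := by
    apply q_eq
    exact ((X.comm _ _ hb' hh).add (X.comm _ _ hb' ha)).of_eq rfl (eo (by abel_nf <;> simp only [ch2, ch3, ch4, ch5, ch6, add_zero, zero_add]))
  have k3 : S.q (z + h') (s + h + a) = S.q (z + h') a := by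
    apply q_eq
    exact c1.of_eq rfl (eo (by abel_nf <;> simp only [ch2, ch3, ch4, ch5, ch6, add_zero, zero_add]))
  have k4 : S.q (z + h') a = S.q z a := by
    apply q_eq'
    exact (X.comm _ _ hh' ha).of_eq (eo (by abel_nf <;> simp only [ch2, ch3, ch4, ch5, ch6, add_zero, zero_add])) rfl
  have k5 : S.q a z = S.q b' s := by
    rw [S.symm a, ← k4, ← k3, k1, k2]
  obtain ⟨m1, m2⟩ := X.meet hz hs ha hb' k5
  constructor
  · rw [e1]; exact hbz.add' m1
  · rw [e2]; exact m2.add' has'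

end Ctx

end Pool.Agent.ETCP
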