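import Pool.Agent.ETCP.Proj

/-!
# Elements with `|V_p| = 4` (helper29)

After helper90 (Theorem D) and helper28: if `V_p = {0, v, v', p}` and `V_v + V_v' ≠ V`, there is
a rigid element.
-/

set_option autoImplicit false
set_option linter.unusedSimpArgs false

namespace Pool.Agent.ETCP

open Pool.Agent.Helper58.PLine (QData)

variable {V Q : Type} [AddCommGroup V] [Module (ZMod 2) V] {S : QData V Q}

/-- `w` commutes with a slot of `q (p, y)` -/
def G (S : QData V Q) (p y w : V) : Prop := ∃ s u, S.q s u = S.q p y ∧ C S s w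

theorem G.add {p y w w' : V} (h : G S p y w) (h' : G S p y w') : G S p y (w + w') := by
  obtain ⟨s1, u1, e1, c1⟩ := h
  obtain ⟨s2, u2, e2, c2⟩ := h'
  obtain ⟨t, h1, h2, h3⟩ := link (e1.trans e2.symm)
  have f1 : S.q (t + w) s1 = S.q p y := by
    rw [← e1, S.symm]
    apply q_eq
    exact (h1.add c1).of_eq rfl (eo (by abel_nf <;> simp only [ch2, ch3, ch4, ch5, ch6, add_zero, zero_add]))
  have f2' : S.q (t + w') s2 = S.q p y := by
    rw [← e2, S.symm]
    apply q_eq
    exact (h2.add c2).of_eq rfl (eo (by abel_nf <;> simp only [ch2, ch3, ch4, ch5, ch6, add_zero, zero_add]))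
  obtain ⟨t', k1, k2, k3⟩ := link (f1.trans f2'.symm)
  refine ⟨t', t + w, ?_, (k3.symm).of_eq rfl (eo (by abel_nf <;> simp only [ch2, ch3, ch4, ch5, ch6, add_zero, zero_add]))⟩
  rw [← f1, S.symm]
  exact (q_eq k1).symm

/-- covering of `G` by the `V_z`, `z` a neighbour of `p` -/
theorem G.cover (he : S.e = 0) {p y w : V} (h : G S p y w) :
    ∃ a h, C S p a ∧ C S p h ∧ C S (w + h) (y + a) := by
  obtain ⟨s, u, e1, c1⟩ := h
  obtain ⟨t, h1, h2, h3⟩ := link e1.symm
  have f1 : S.q (t + w) s = S.q p y := by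
    rw [← e1, S.symm]
    apply q_eq
    exact (h2.add c1).of_eq rfl (eo (by abel_nf <;> simp only [ch2, ch3, ch4, ch5, ch6, add_zero, zero_add]))
  obtain ⟨z, k1, k2, k3⟩ := link f1.symm
  -- `y + z ∈ V_p`, `p + t + w ~ z`, `y + t ∈ V_p`
  refine ⟨y + z, p + t + z, k1, ?_, ?_⟩
  · exact ((C.self he p).add (h1.add k1)).of_eq rfl (eo (by abel_nf <;> simp only [ch2, ch3, ch4, ch5, ch6, add_zero, zero_add]))
  · have : C S (p + (t + w) + z) z := k3.add' (C.self he z)
    exact this.of_eq (eo (by abel_nf <;> simp only [ch2, ch3, ch4, ch5, ch6, add_zero, zero_add])) (eo (by abel_nf <;> simp only [ch2, ch3, ch4, ch5, ch6, add_zero, zero_add]))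

theorem G.of_cover {p y w a h : V} (ha : C S p a) (hh : C S p h) (hc : C S (w + h) (y + a)) :
    G S p y w := by
  have h1 : G S p y (w + h) := by
    refine ⟨y + a, p, ?_, hc.symm⟩
    rw [S.symm]
    apply q_eq
    exact ha.of_eq rfl (eo (by abel_nf <;> simp only [ch2, ch3, ch4, ch5, ch6, add_zero, zero_add]))
  have h2 : G S p y h := ⟨p, y, rfl, hh⟩
  have := h1.add h2
  rwa [show w + h + h = w from (eo (by abel_nf <;> simp only [ch2, ch3, ch4, ch5, ch6, add_zero, zero_add]))] at this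

/-- a group is not the union of two proper subgroups -/
theorem two_cover {W P P' : V → Prop} (hW : ∀ a b, W a → W b → W (a + b))
    (h : ∀ w, W w → P w ∨ P' w)
    (hP : ∀ a b, W a → W b → P a → P b → P (a + b))
    (hP' : ∀ a b, W a → W b → P' a → P' b → P' (a + b)) :
    (∀ w, W w → P w) ∨ (∀ w, W w → P' w) := by
  by_contra hcon
  rw [not_or] at hcon
  obtain ⟨h1, h2⟩ := hcon
  push Not at h1 h2
  obtain ⟨a, ha, ha'⟩ := h1
  obtain ⟨b, hb, hb'⟩ := h2
  have hab := hW _ _ ha hb
  have pa' : P' a := (h a ha).resolve_left ha'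
  have pb : P b := (h b hb).resolve_right hb'
  rcases h _ hab with h3 | h3
  · apply ha'
    have := hP _ _ hab hb h3 pb
    rwa [show a + b + b = a from (eo (by abel_nf <;> simp only [ch2, ch3, ch4, ch5, ch6, add_zero, zero_add]))] at this
  · apply hb'
    have := hP' _ _ hab ha h3 pa'
    rwa [show a + b + a = b from (eo (by abel_nf <;> simp only [ch2, ch3, ch4, ch5, ch6, add_zero, zero_add]))] at this

/-- the situation `V_p = {0, v, v', p}` -/
structure Four (S : QData V Q) (p v v' : V) : Prop where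
  he : S.e = 0
  hp : v + v' = p
  hv : C S p v
  four : ∀ x, C S p x → x = 0 ∨ x = v ∨ x = v' ∨ x = p

namespace Four

variable {p v v' : V} (X : Four S p v v')
include X

theorem pp : C S p p := C.self X.he p

theorem hv' : C S p v' := (X.hv.add X.pp).of_eq rfl (by rw [← X.hp]; exact (eo (by abel_nf <;> simp only [ch2, ch3, ch4, ch5, ch6, add_zero, zero_add])))

theorem swap : Four S p v' v where
  he := X.he
  hp := by rw [add_comm]; exact X.hp
  hv := X.hv'
  four := by
    intro x hx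
    rcases X.four x hx with h | h | h | h
    · exact Or.inl h
    · exact Or.inr (Or.inr (Or.inl h))
    · exact Or.inr (Or.inl h)
    · exact Or.inr (Or.inr (Or.inr h))

theorem vv' : C S v v' :=
  ((C.self X.he v).add X.hv.symm).of_eq rfl (by rw [← X.hp]; exact (eo (by abel_nf <;> simp only [ch2, ch3, ch4, ch5, ch6, add_zero, zero_add])))

theorem commv {g : V} (hg : C S p g) : C S v g := by
  rcases X.four g hg with rfl | rfl | rfl | rfl
  · exact C.zero _
  · exact C.self X.he _
  · exact X.vv'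
  · exact X.hv.symm

theorem commv' {g : V} (hg : C S p g) : C S v' g := X.swap.commv hg

theorem comm {g h : V} (hg : C S p g) (hh : C S p h) : C S g h := by
  rcases X.four g hg with rfl | rfl | rfl | rfl
  · exact C.zero' _
  · exact X.commv hh
  · exact X.commv' hh
  · exact hh

/-- `Q_v ∩ Q_v' = 0` -/
theorem disj {a b : V} (h : S.q v a = S.q v' b) : C S v a ∧ C S v' b := by
  obtain ⟨t, h1, h2, h3⟩ := link h
  rw [X.hp] at h3
  exact ⟨(h1.add (X.commv h3)).of_eq rfl (eo (by abel_nf <;> simp only [ch2, ch3, ch4, ch5, ch6, add_zero, zero_add])), (h2.add (X.commv' h3)).of_eq rfl (eo (by abel_nf <;> simp only [ch2, ch3, ch4, ch5, ch6, add_zero, zero_add]))⟩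

/-- basic step: `u2 ~ y + v'`, `u3 ~ y + v`, `u2 + u3 ~ y` -/
theorem step1 {y u2 u3 : V} (h2 : C S (y + v') u2) (h3 : C S (y + v) u3) (h : C S y (u2 + u3)) :
    C S v u3 ∧ C S y u3 := by
  have e1 : S.q y u2 = S.q v' u2 := q_eq' h2
  have e2 : S.q y u3 = S.q v u3 := q_eq' h3
  have e3 : S.q y u2 = S.q y u3 := q_eq h
  obtain ⟨h4, -⟩ := X.disj (e2.symm.trans (e3.symm.trans e1))
  exact ⟨h4, (h3.add' h4).of_eq (eo (by abel_nf <;> simp only [ch2, ch3, ch4, ch5, ch6, add_zero, zero_add])) rfl⟩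

/-- basic step: `u2 ~ y + v'`, `u3 ~ y + p`, `u2 + u3 ~ y` -/
theorem step2 {y u2 u3 : V} (h2 : C S (y + v') u2) (h3 : C S (y + p) u3) (h : C S y (u2 + u3)) :
    C S v u3 ∧ C S (y + v') u3 := by
  have e1 : S.q y u2 = S.q v' u2 := q_eq' h2
  have e2 : S.q y u3 = S.q p u3 := q_eq' h3
  have e3 : S.q y u2 = S.q y u3 := q_eq h
  obtain ⟨t, k1, k2, k3⟩ := link (e1.symm.trans (e3.trans e2))
  have k4 : C S v t := k3.of_eq (by rw [← X.hp]; exact (eo (by abel_nf <;> simp only [ch2, ch3, ch4, ch5, ch6, add_zero, zero_add]))) rfl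
  have k5 : C S v u3 := ((X.commv k2).add k4).of_eq rfl (eo (by abel_nf <;> simp only [ch2, ch3, ch4, ch5, ch6, add_zero, zero_add]))
  exact ⟨k5, (h3.add' k5).of_eq (by rw [← X.hp]; exact (eo (by abel_nf <;> simp only [ch2, ch3, ch4, ch5, ch6, add_zero, zero_add]))) rfl⟩

/-- `w ∈ V_(y) + V_p` -/
def W (_X : Four S p v v') (y w : V) : Prop := ∃ h, C S p h ∧ C S (w + h) y

theorem W_add {y w w' : V} (h : X.W y w) (h' : X.W y w') : X.W y (w + w') := by
  obtain ⟨a, ha, ca⟩ := h
  obtain ⟨b, hb, cb⟩ := h'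
  exact ⟨a + b, ha.add hb, (ca.add' cb).of_eq (eo (by abel_nf <;> simp only [ch2, ch3, ch4, ch5, ch6, add_zero, zero_add])) rfl⟩

/-- `(V_y + V_p) ∪ (V_(y+v') + V_p)` is closed under addition, mixed case -/
theorem mixed {y0 w w' : V} (h1 : X.W y0 w) (h2 : X.W (y0 + v') w')
    (h3 : ∃ a h, C S p a ∧ C S p h ∧ C S (w + w' + h) (y0 + a)) :
    X.W y0 (w + w') ∨ X.W (y0 + v') (w + w') := by
  obtain ⟨a, h, ha, hh, c3⟩ := h3
  obtain ⟨h1', hh1, c1⟩ := h1
  obtain ⟨h2', hh2, c2⟩ := h2
  have hk : C S p (h1' + h2' + h) := (hh1.add hh2).add hh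
  have hpv : v + p = v' := by rw [← X.hp]; exact (eo (by abel_nf <;> simp only [ch2, ch3, ch4, ch5, ch6, add_zero, zero_add]))
  have hpv' : v' + p = v := by rw [← X.hp]; exact (eo (by abel_nf <;> simp only [ch2, ch3, ch4, ch5, ch6, add_zero, zero_add]))
  rcases X.four a ha with rfl | rfl | rfl | rfl
  · left
    exact ⟨h, hh, c3.of_eq rfl (eo (by abel_nf <;> simp only [ch2, ch3, ch4, ch5, ch6, add_zero, zero_add]))⟩
  · -- a = v
    left
    rcases X.four _ hk with hk0 | hk0 | hk0 | hk0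
    · have e : w + h1' = w' + h2' + (w + w' + h) := by
        have : h = h1' + h2' := by
          have : h = h1' + h2' + (h1' + h2' + h) := (eo (by abel_nf <;> simp only [ch2, ch3, ch4, ch5, ch6, add_zero, zero_add]))
          rw [this, hk0]; exact (eo (by abel_nf <;> simp only [ch2, ch3, ch4, ch5, ch6, add_zero, zero_add]))
        rw [this]; exact (eo (by abel_nf <;> simp only [ch2, ch3, ch4, ch5, ch6, add_zero, zero_add]))
      have s := X.step1 (y := y0) (u2 := w' + h2') (u3 := w + w' + h) c2.symm c3.symm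
        (by rw [← e]; exact c1.symm)
      exact ⟨h, hh, s.2.symm⟩
    · -- k = a = v
      have e : h = h1' + h2' + a := by
        have : h = h1' + h2' + (h1' + h2' + h) := (eo (by abel_nf <;> simp only [ch2, ch3, ch4, ch5, ch6, add_zero, zero_add]))
        rw [this, hk0]
      have s := X.step1 (y := y0) (u2 := w' + h2') (u3 := w + w' + h + (y0 + a)) c2.symm
        (c3.symm.add (C.self X.he _))
        (((C.self X.he y0).add c1.symm).of_eq rfl (by rw [e]; exact (eo (by abel_nf <;> simp only [ch2, ch3, ch4, ch5, ch6, add_zero, zero_add]))))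
      refine ⟨h + a, hh.add X.hv, ?_⟩
      exact (s.2.symm.add' (C.self X.he y0)).of_eq (eo (by abel_nf <;> simp only [ch2, ch3, ch4, ch5, ch6, add_zero, zero_add])) rfl
    · -- k = v'
      have e : h = h1' + h2' + v' := by
        have : h = h1' + h2' + (h1' + h2' + h) := (eo (by abel_nf <;> simp only [ch2, ch3, ch4, ch5, ch6, add_zero, zero_add]))
        rw [this, hk0]
      have s := X.step1 (y := y0) (u2 := w' + h2' + (y0 + v')) (u3 := w + w' + h)
        (c2.symm.add (C.self X.he _)) c3.symm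
        (((C.self X.he y0).add c1.symm).of_eq rfl (by rw [e]; exact (eo (by abel_nf <;> simp only [ch2, ch3, ch4, ch5, ch6, add_zero, zero_add]))))
      exact ⟨h, hh, s.2.symm⟩
    · -- k = p
      have e : h = h1' + h2' + a + v' := by
        have : h = h1' + h2' + (h1' + h2' + h) := (eo (by abel_nf <;> simp only [ch2, ch3, ch4, ch5, ch6, add_zero, zero_add]))
        rw [this, hk0, ← X.hp]; exact (eo (by abel_nf <;> simp only [ch2, ch3, ch4, ch5, ch6, add_zero, zero_add]))
      have s := X.step1 (y := y0) (u2 := w' + h2' + (y0 + v')) (u3 := w + w' + h + (y0 + a))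
        (c2.symm.add (C.self X.he _)) (c3.symm.add (C.self X.he _))
        (c1.symm.of_eq rfl (by rw [e]; exact (eo (by abel_nf <;> simp only [ch2, ch3, ch4, ch5, ch6, add_zero, zero_add]))))
      refine ⟨h + a, hh.add X.hv, ?_⟩
      exact (s.2.symm.add' (C.self X.he y0)).of_eq (eo (by abel_nf <;> simp only [ch2, ch3, ch4, ch5, ch6, add_zero, zero_add])) rfl
  · right
    exact ⟨h, hh, c3⟩
  · -- a = p, renamed
    right
    rcases X.four _ hk with hk0 | hk0 | hk0 | hk0
    · have e : h = h1' + h2' := by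
        have : h = h1' + h2' + (h1' + h2' + h) := (eo (by abel_nf <;> simp only [ch2, ch3, ch4, ch5, ch6, add_zero, zero_add]))
        rw [this, hk0]; exact (eo (by abel_nf <;> simp only [ch2, ch3, ch4, ch5, ch6, add_zero, zero_add]))
      have s := X.step2 (y := y0) (u2 := w' + h2') (u3 := w + w' + h) c2.symm c3.symm
        (c1.symm.of_eq rfl (by rw [e]; exact (eo (by abel_nf <;> simp only [ch2, ch3, ch4, ch5, ch6, add_zero, zero_add]))))
      exact ⟨h, hh, s.2.symm⟩
    · -- k = v = v' + p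
      have e : h = h1' + h2' + v' + a := by
        have : h = h1' + h2' + (h1' + h2' + h) := (eo (by abel_nf <;> simp only [ch2, ch3, ch4, ch5, ch6, add_zero, zero_add]))
        rw [this, hk0, ← X.hp]; exact (eo (by abel_nf <;> simp only [ch2, ch3, ch4, ch5, ch6, add_zero, zero_add]))
      have s := X.step2 (y := y0) (u2 := w' + h2' + (y0 + v')) (u3 := w + w' + h + (y0 + a))
        (c2.symm.add (C.self X.he _)) (c3.symm.add (C.self X.he _))
        (c1.symm.of_eq rfl (by rw [e]; exact (eo (by abel_nf <;> simp only [ch2, ch3, ch4, ch5, ch6, add_zero, zero_add]))))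
      refine ⟨h + v, hh.add X.hv, ?_⟩
      exact (s.2.symm.add' (C.self X.he (y0 + v'))).of_eq (by rw [← hpv']; exact (eo (by abel_nf <;> simp only [ch2, ch3, ch4, ch5, ch6, add_zero, zero_add]))) rfl
    · -- k = v'
      have e : h = h1' + h2' + v' := by
        have : h = h1' + h2' + (h1' + h2' + h) := (eo (by abel_nf <;> simp only [ch2, ch3, ch4, ch5, ch6, add_zero, zero_add]))
        rw [this, hk0]
      have s := X.step2 (y := y0) (u2 := w' + h2' + (y0 + v')) (u3 := w + w' + h)
        (c2.symm.add (C.self X.he _)) c3.symm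
        (((C.self X.he y0).add c1.symm).of_eq rfl (by rw [e]; exact (eo (by abel_nf <;> simp only [ch2, ch3, ch4, ch5, ch6, add_zero, zero_add]))))
      exact ⟨h, hh, s.2.symm⟩
    · -- k = p
      have e : h = h1' + h2' + a := by
        have : h = h1' + h2' + (h1' + h2' + h) := (eo (by abel_nf <;> simp only [ch2, ch3, ch4, ch5, ch6, add_zero, zero_add]))
        rw [this, hk0]
      have s := X.step2 (y := y0) (u2 := w' + h2') (u3 := w + w' + h + (y0 + a))
        c2.symm (c3.symm.add (C.self X.he _))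
        (((C.self X.he y0).add c1.symm).of_eq rfl (by rw [e]; exact (eo (by abel_nf <;> simp only [ch2, ch3, ch4, ch5, ch6, add_zero, zero_add]))))
      refine ⟨h + v, hh.add X.hv, ?_⟩
      exact (s.2.symm.add' (C.self X.he (y0 + v'))).of_eq (by rw [← hpv']; exact (eo (by abel_nf <;> simp only [ch2, ch3, ch4, ch5, ch6, add_zero, zero_add]))) rfl

theorem closed {p0 y y0 : V} (hy : C S p (y + y0)) (e0 : p0 = p) (a b : V) (ha : G S p0 y a)
    (hb : G S p0 y b) (h1 : X.W y0 a ∨ X.W (y0 + v') a) (h2 : X.W y0 b ∨ X.W (y0 + v') b) :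
    X.W y0 (a + b) ∨ X.W (y0 + v') (a + b) := by
  subst e0
  have key : ∀ w, G S p0 y w → ∃ a h, C S p0 a ∧ C S p0 h ∧ C S (w + h) (y0 + a) := by
    intro w hw
    obtain ⟨c, h, hc, hh, hcc⟩ := hw.cover X.he
    exact ⟨y + y0 + c, h, hy.add hc, hh, hcc.of_eq rfl (eo (by abel_nf <;> simp only [ch2, ch3, ch4, ch5, ch6, add_zero, zero_add]))⟩
  rcases h1 with h1 | h1 <;> rcases h2 with h2 | h2
  · exact Or.inl (X.W_add h1 h2)
  · exact X.mixed h1 h2 (key _ (ha.add hb))
  · have := X.mixed h2 h1 (key _ (hb.add ha))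
    rwa [add_comm b a] at this
  · exact Or.inr (X.W_add h1 h2)

/-- one neighbour `z0` of `p` has `G = V_z0 + V_p` -/
theorem exists_full (y : V) : ∃ z0, C S p (y + z0) ∧ ∀ w, G S p y w → X.W z0 w := by
  have hG : ∀ a b, G S p y a → G S p y b → G S p y (a + b) := fun a b ha hb => ha.add hb
  have hcov : ∀ w, G S p y w → (X.W y w ∨ X.W (y + v') w) ∨
      (X.W (y + v) w ∨ X.W (y + v + v') w) := by
    intro w hw
    obtain ⟨c, h, hc, hh, hcc⟩ := hw.cover X.he
    rcases X.four c hc with rfl | rfl | rfl | rfl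
    · exact Or.inl (Or.inl ⟨h, hh, hcc.of_eq rfl (eo (by abel_nf <;> simp only [ch2, ch3, ch4, ch5, ch6, add_zero, zero_add]))⟩)
    · exact Or.inr (Or.inl ⟨h, hh, hcc⟩)
    · exact Or.inl (Or.inr ⟨h, hh, hcc⟩)
    · exact Or.inr (Or.inr ⟨h, hh, hcc.of_eq rfl (by rw [← X.hp]; exact (eo (by abel_nf <;> simp only [ch2, ch3, ch4, ch5, ch6, add_zero, zero_add])))⟩)
  have hyy : C S p (y + y) := (C.zero p).of_eq rfl (eo (by abel_nf <;> simp only [ch2, ch3, ch4, ch5, ch6, add_zero, zero_add]))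
  have hyv : C S p (y + (y + v)) := X.hv.of_eq rfl (eo (by abel_nf <;> simp only [ch2, ch3, ch4, ch5, ch6, add_zero, zero_add]))
  have hyv' : C S p (y + (y + v')) := X.hv'.of_eq rfl (eo (by abel_nf <;> simp only [ch2, ch3, ch4, ch5, ch6, add_zero, zero_add]))
  have hyp : C S p (y + (y + v + v')) := (X.hv.add X.hv').of_eq rfl (eo (by abel_nf <;> simp only [ch2, ch3, ch4, ch5, ch6, add_zero, zero_add]))
  rcases two_cover hG hcov (X.closed hyy rfl) (X.closed hyv rfl) with h | h
  · rcases two_cover hG h (fun a b _ _ h1 h2 => X.W_add h1 h2)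
      (fun a b _ _ h1 h2 => X.W_add h1 h2) with h' | h'
    · exact ⟨y, hyy, h'⟩
    · exact ⟨y + v', hyv', h'⟩
  · rcases two_cover hG h (fun a b _ _ h1 h2 => X.W_add h1 h2)
      (fun a b _ _ h1 h2 => X.W_add h1 h2) with h' | h'
    · exact ⟨y + v, hyv, h'⟩
    · exact ⟨y + v + v', hyp, h'⟩

/-- **existence of a rigid element** if `V_v + V_v' ≠ V` -/
theorem exists_rigid {y : V} (hy : ¬ ∃ z s, C S v' z ∧ C S v s ∧ y = z + s) :
    ∃ r, r ≠ 0 ∧ ∀ x, C S r x → x = 0 ∨ x = r := by
  obtain ⟨z0, hz0, hfull⟩ := X.exists_full y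
  -- `z0` is not in `V_v + V_v'`
  have hn : ¬ ∃ z s, C S v' z ∧ C S v s ∧ z0 = z + s := by
    rintro ⟨z, s, h1, h2, h3⟩
    apply hy
    refine ⟨z, s + (y + z0), h1, h2.add (X.commv hz0), ?_⟩
    have : y = z0 + (y + z0) := (eo (by abel_nf <;> simp only [ch2, ch3, ch4, ch5, ch6, add_zero, zero_add]))
    rw [this, h3]
    have : z + s + (y + (z + s)) = y := (eo (by abel_nf <;> simp only [ch2, ch3, ch4, ch5, ch6, add_zero, zero_add]))
    rw [this]; exact (eo (by abel_nf <;> simp only [ch2, ch3, ch4, ch5, ch6, add_zero, zero_add]))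
  have hnv : ¬ C S v z0 := fun h => hn ⟨0, z0, C.zero _, h, by rw [zero_add]⟩
  have hnv' : ¬ C S v' z0 := fun h => hn ⟨z0, 0, h, C.zero _, by rw [add_zero]⟩
  have hnp : ¬ C S p z0 := fun h => hnv (X.commv h)
  -- an element of `V_p` commuting with `z0` is zero
  have hz : ∀ a, C S p a → C S z0 a → a = 0 := by
    intro a ha hc
    rcases X.four a ha with h | rfl | rfl | rfl
    · exact h
    · exact absurd hc.symm hnv
    · exact absurd hc.symm hnv'
    · exact absurd hc.symm hnp
  -- `q (v, z0)` is not in `Q_p`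
  have hQ : ∀ a, S.q p a ≠ S.q v z0 := by
    intro a e
    obtain ⟨t, h1, h2, h3⟩ := link e
    apply hn
    refine ⟨t, z0 + t, h3.of_eq (by rw [← X.hp]; exact (eo (by abel_nf <;> simp only [ch2, ch3, ch4, ch5, ch6, add_zero, zero_add]))) rfl, h2, (eo (by abel_nf <;> simp only [ch2, ch3, ch4, ch5, ch6, add_zero, zero_add]))⟩
  have hQ' : ∀ a, S.q p a ≠ S.q v' z0 := by
    intro a e
    obtain ⟨t, h1, h2, h3⟩ := link e
    apply hn
    refine ⟨z0 + t, t, h2, h3.of_eq (by rw [← X.hp]; exact (eo (by abel_nf <;> simp only [ch2, ch3, ch4, ch5, ch6, add_zero, zero_add]))) rfl, (eo (by abel_nf <;> simp only [ch2, ch3, ch4, ch5, ch6, add_zero, zero_add]))⟩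
  refine ⟨z0 + p, ?_, ?_⟩
  · intro h
    apply hnp
    rw [eo h]
    exact X.pp
  · intro x hx
    have hGx : G S p y x := by
      refine ⟨z0 + p, p, ?_, hx⟩
      rw [S.symm]
      apply q_eq
      exact (hz0.add X.pp).of_eq rfl (eo (by abel_nf <;> simp only [ch2, ch3, ch4, ch5, ch6, add_zero, zero_add]))
    obtain ⟨c, hc, cc⟩ := hfull x hGx
    have e1 : S.q p (x + c) = S.q (z0 + p) (x + c) := by
      apply q_eq'
      exact cc.symm.of_eq (eo (by abel_nf <;> simp only [ch2, ch3, ch4, ch5, ch6, add_zero, zero_add])) rfl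
    have e2 : S.q (z0 + p) (x + c) = S.q (z0 + p) c := by
      apply q_eq
      exact hx.of_eq rfl (eo (by abel_nf <;> simp only [ch2, ch3, ch4, ch5, ch6, add_zero, zero_add]))
    have e3 : S.q (z0 + p) c = S.q z0 c := by
      apply q_eq'
      exact hc.of_eq (eo (by abel_nf <;> simp only [ch2, ch3, ch4, ch5, ch6, add_zero, zero_add])) rfl
    have e4 : S.q p (x + c) = S.q z0 c := e1.trans (e2.trans e3)
    rcases X.four c hc with rfl | rfl | rfl | rfl
    · left
      have h1 : C S p (x + 0) := by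
        show S.q p (x + 0) = S.z
        rw [e4]; exact C.zero z0
      have := hz _ h1 cc.symm
      rwa [add_zero] at this
    · exact absurd (e4.trans (S.symm _ _)) (hQ _)
    · exact absurd (e4.trans (S.symm _ _)) (hQ' _)
    · right
      have h1 : C S c (x + c + z0) := q_eq_iff.1 (e4.trans (S.symm _ _))
      have h2 : C S z0 (x + c + z0) := cc.symm.add (C.self X.he z0)
      have := hz _ h1 h2
      have : x = x + c + z0 + (z0 + c) := (eo (by abel_nf <;> simp only [ch2, ch3, ch4, ch5, ch6, add_zero, zero_add]))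
      rw [this, ‹x + c + z0 = 0›, zero_add]

end Four

end Pool.Agent.ETCP
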