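import Pool.Agent.ETCP.Alpha

/-!
# Product lemma: the projection and the decomposition (helper29)
-/

set_option autoImplicit false
set_option linter.unusedSimpArgs false

namespace Pool.Agent.ETCP

open Pool.Agent.Helper58.PLine (QData)

variable {V Q : Type} [AddCommGroup V] [Module (ZMod 2) V] {S : QData V Q}

namespace Ctx

variable {p v v' : V} (X : Ctx S p v v')
include X

/-- by the saturation theorem the map `α_y` is `q (., y1)` -/
theorem exists_y1 [Finite V] {z0 s0 : V} (hz0 : C S v' z0) (hs0 : C S v s0) :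
    ∃ y1, ∀ z s k, C S v' z → C S v s → X.K z0 s0 z s k →
      S.q (z + s) y1 = S.q (z + s) (z0 + k) := by
  classical
  choose fz fs hfz hfs hfw using X.full
  have hK : ∀ w, ∃ k, X.K z0 s0 (fz w) (fs w) k := fun w =>
    X.exists_K hz0 hs0 (hfz w) (hfs w)
  choose fk hfk using hK
  have hval : ∀ w z s k, C S v' z → C S v s → w = z + s → X.K z0 s0 z s k →
      S.q w (z0 + fk w) = S.q w (z0 + k) := by
    intro w z s k hz hs hw hk
    have := X.indep hz0 hs0 (hfz w) (hfs w) hz hs (by rw [← hfw w, hw]) (hfk w) hk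
    rwa [← hfw w] at this
  obtain ⟨y1, hy1⟩ := ETC.saturation (S := S) (α := fun w => S.q w (z0 + fk w)) (by
    intro w1 w2
    have hz3 : C S v' (fz w1 + fz w2) := (hfz w1).add (hfz w2)
    have hs3 : C S v (fs w1 + fs w2) := (hfs w1).add (hfs w2)
    obtain ⟨k3, hk3⟩ := X.exists_K hz0 hs0 hz3 hs3
    have e3 : w1 + w2 = fz w1 + fz w2 + (fs w1 + fs w2) := by
      rw [add_add_add_comm, ← hfw w1, ← hfw w2]
    have e := X.three hz0 hs0 (hfz w1) (hfs w1) (hfz w2) (hfs w2) (hfk w1) (hfk w2) hk3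
    rw [← hfw w1, ← hfw w2] at e
    obtain ⟨t, h1, h2, h3⟩ := link e
    refine ⟨z0 + k3 + t, ?_, ?_, ?_⟩
    · apply q_eq
      exact h1.of_eq rfl (eo (by abel_nf <;> simp only [ch2, ch3, ch4, ch5, ch6, add_zero, zero_add]))
    · apply q_eq
      exact h2.of_eq rfl (eo (by abel_nf <;> simp only [ch2, ch3, ch4, ch5, ch6, add_zero, zero_add]))
    · show S.q (w1 + w2) (z0 + fk (w1 + w2)) = _
      rw [hval (w1 + w2) _ _ _ hz3 hs3 e3 hk3]
      apply q_eq
      exact h3.of_eq rfl (eo (by abel_nf <;> simp only [ch2, ch3, ch4, ch5, ch6, add_zero, zero_add])))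
  refine ⟨y1, fun z s k hz hs hk => ?_⟩
  rw [← hy1]
  exact hval _ z s k hz hs rfl hk

/-- `t ~ z + s` gives a common shift -/
theorem shiftA {t z s : V} (hz : C S v' z) (hs : C S v s) (ht : C S t (z + s)) :
    ∃ h, C S p h ∧ C S t (z + h) ∧ C S t (s + h) := by
  have e1 : S.q (v + t) (z + s) = S.q v (z + s) := q_eq' (ht.of_eq (eo (by abel_nf <;> simp only [ch2, ch3, ch4, ch5, ch6, add_zero, zero_add])) rfl)
  have e2 : S.q v (z + s) = S.q v z := q_eq (hs.of_eq rfl (eo (by abel_nf <;> simp only [ch2, ch3, ch4, ch5, ch6, add_zero, zero_add])))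
  have e3 : S.q v z = S.q p z := by
    apply q_eq'
    exact hz.of_eq (by rw [← X.hp]; exact (eo (by abel_nf <;> simp only [ch2, ch3, ch4, ch5, ch6, add_zero, zero_add]))) rfl
  obtain ⟨τ, h1, h2, h3⟩ := link (e1.trans (e2.trans e3))
  have c1 : C S (v + t) (s + (z + τ)) := h1.of_eq rfl (eo (by abel_nf <;> simp only [ch2, ch3, ch4, ch5, ch6, add_zero, zero_add]))
  have c2 : C S v (s + (z + τ)) := hs.add (X.comm _ _ X.hv h2)
  have c3 : C S t (s + (z + τ)) := (c1.add' c2).of_eq (eo (by abel_nf <;> simp only [ch2, ch3, ch4, ch5, ch6, add_zero, zero_add])) rfl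
  exact ⟨z + τ, h2, (ht.add c3).of_eq rfl (eo (by abel_nf <;> simp only [ch2, ch3, ch4, ch5, ch6, add_zero, zero_add])), c3⟩

/-- the projection -/
theorem exists_proj [Finite V] (y : V) : ∃ y1, C S v' y1 ∧ C S v (y + y1) ∧
    (∃ z0, C S v' z0 ∧ ∀ s, C S v s → ∃ h, C S p h ∧ S.q s y1 = S.q h z0) ∧
    (∃ s0, C S v s0 ∧ ∀ z, C S v' z → ∃ h, C S p h ∧ S.q z (y + y1) = S.q h s0) ∧
    (∀ w, C S w y → C S w y1) := by
  obtain ⟨z0, s0, hz0, hs0, rfl⟩ := X.full y
  obtain ⟨y1, hy1⟩ := X.exists_y1 hz0 hs0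
  have hvv : C S v v := C.self X.he v
  have hvv' : C S v' v' := C.self X.he v'
  refine ⟨y1, ?_, ?_, ⟨z0, hz0, ?_⟩, ⟨s0, hs0, ?_⟩, ?_⟩
  · -- `y1 ∈ V_v'`
    have hK : X.K z0 s0 v' 0 0 := by
      refine ⟨C.zero p, ⟨v', X.hv', ?_⟩, ⟨0, C.zero p, ?_⟩⟩
      · exact (C.zero' _).of_eq (eo (by abel_nf <;> simp only [ch2, ch3, ch4, ch5, ch6, add_zero, zero_add])) rfl
      · exact (C.zero _).of_eq rfl (eo (by abel_nf <;> simp only [ch2, ch3, ch4, ch5, ch6, add_zero, zero_add]))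
    have := hy1 v' 0 0 hvv' (C.zero v) hK
    rw [add_zero, add_zero] at this
    show S.q v' y1 = S.z
    rw [this]; exact hz0
  · have hK : X.K z0 s0 0 v 0 := by
      refine ⟨C.zero p, ⟨0, C.zero p, ?_⟩, ⟨v, X.hv, ?_⟩⟩
      · exact (C.zero' _).of_eq (eo (by abel_nf <;> simp only [ch2, ch3, ch4, ch5, ch6, add_zero, zero_add])) rfl
      · exact (C.zero _).of_eq rfl (eo (by abel_nf <;> simp only [ch2, ch3, ch4, ch5, ch6, add_zero, zero_add]))
    have := hy1 0 v 0 (C.zero v') hvv hK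
    rw [zero_add, add_zero] at this
    have h1 : C S v (y1 + z0) := q_eq_iff.1 this
    exact (h1.add hs0).of_eq rfl (eo (by abel_nf <;> simp only [ch2, ch3, ch4, ch5, ch6, add_zero, zero_add]))
  · intro s hs
    obtain ⟨k, hk, ck⟩ := X.shift hz0 hs
    have hK : X.K z0 s0 0 s k :=
      ⟨hk, ⟨0, C.zero p, (C.zero' _).of_eq (eo (by abel_nf <;> simp only [ch2, ch3, ch4, ch5, ch6, add_zero, zero_add])) rfl⟩, ⟨k, hk, ck⟩⟩
    have := hy1 0 s k (C.zero v') hs hK
    rw [zero_add] at this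
    refine ⟨k, hk, ?_⟩
    rw [this]
    have e1 : S.q s (z0 + k) = S.q k (z0 + k) := by
      apply q_eq'
      exact ck.symm
    rw [e1]
    apply q_eq
    exact (C.self X.he k).of_eq rfl (eo (by abel_nf <;> simp only [ch2, ch3, ch4, ch5, ch6, add_zero, zero_add]))
  · intro z hz
    obtain ⟨k, hk, ck⟩ := X.shift hz hs0
    have hK : X.K z0 s0 z 0 k :=
      ⟨hk, ⟨k, hk, ck⟩, ⟨0, C.zero p, (C.zero _).of_eq rfl (eo (by abel_nf <;> simp only [ch2, ch3, ch4, ch5, ch6, add_zero, zero_add]))⟩⟩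
    have := hy1 z 0 k hz (C.zero v) hK
    rw [add_zero] at this
    have h1 : C S z (y1 + (z0 + k)) := q_eq_iff.1 this
    refine ⟨k, hk, ?_⟩
    have e1 : S.q z (z0 + s0 + y1) = S.q z (s0 + k) := by
      apply q_eq
      exact h1.of_eq rfl (eo (by abel_nf <;> simp only [ch2, ch3, ch4, ch5, ch6, add_zero, zero_add]))
    have e2 : S.q z (s0 + k) = S.q k (s0 + k) := by
      apply q_eq'
      exact ck
    rw [e1, e2]
    apply q_eq
    exact (C.self X.he k).of_eq rfl (eo (by abel_nf <;> simp only [ch2, ch3, ch4, ch5, ch6, add_zero, zero_add]))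
  · intro w hw
    obtain ⟨z, s, hz, hs, rfl⟩ := X.full w
    obtain ⟨h, hh, a1, a2⟩ := X.shiftA hz hs hw.symm
    obtain ⟨g, hg, b1, b2⟩ := X.shiftA hz0 hs0 a1.symm
    obtain ⟨g', hg', c1, c2⟩ := X.shiftA hz0 hs0 a2.symm
    obtain ⟨a, b, ha, hb, haz, hbs, e⟩ := X.sum hz hs (hg.add hg')
    have ek : g + a = g' + b := by
      have : a = g + g' + b := by rw [e]; exact (eo (by abel_nf <;> simp only [ch2, ch3, ch4, ch5, ch6, add_zero, zero_add]))
      rw [this]; exact (eo (by abel_nf <;> simp only [ch2, ch3, ch4, ch5, ch6, add_zero, zero_add]))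
    have k1 : C S (z + h) (z0 + (g + a)) := by
      have : C S (z + h) a := haz.symm.add' (X.comm _ _ hh ha)
      exact (b1.add this).of_eq rfl (eo (by abel_nf <;> simp only [ch2, ch3, ch4, ch5, ch6, add_zero, zero_add]))
    have k1' : C S (z + h) (s0 + (g + a)) := by
      have : C S (z + h) a := haz.symm.add' (X.comm _ _ hh ha)
      exact (b2.add this).of_eq rfl (eo (by abel_nf <;> simp only [ch2, ch3, ch4, ch5, ch6, add_zero, zero_add]))
    have k2 : C S (s + h) (z0 + (g + a)) := by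
      rw [ek]
      have : C S (s + h) b := hbs.symm.add' (X.comm _ _ hh hb)
      exact (c1.add this).of_eq rfl (eo (by abel_nf <;> simp only [ch2, ch3, ch4, ch5, ch6, add_zero, zero_add]))
    have hK : X.K z0 s0 z s (g + a) :=
      ⟨hg.add ha, ⟨h, hh, k1'⟩, ⟨h, hh, k2.symm⟩⟩
    have := hy1 z s (g + a) hz hs hK
    show S.q (z + s) y1 = S.z
    rw [this]
    exact (k1.add' k2).of_eq (eo (by abel_nf <;> simp only [ch2, ch3, ch4, ch5, ch6, add_zero, zero_add])) rfl

/-- **Product lemma.** -/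
theorem decomp [Finite V] (hnd : ∀ x, (∀ y, C S x y) → x = 0) :
    ∃ A B : Submodule (ZMod 2) V, IsCompl A B ∧ (∀ a ∈ A, ∀ b ∈ B, C S a b) ∧
      (∀ a ∈ A, ∀ b ∈ B, ∀ a' ∈ A, ∀ b' ∈ B, C S (a + b) (a' + b') → C S a a' ∧ C S b b') ∧
      v ∈ A ∧ v' ∈ B := by
  classical
  choose T hT1 hT2 hT3 hT4 hT5 using (fun y => X.exists_proj y)
  have orth : ∀ y u, C S (T y) (u + T u) := by
    intro y u
    obtain ⟨z0, hz0, h3⟩ := hT3 y
    obtain ⟨s0, hs0, h4⟩ := hT4 u
    obtain ⟨h, hh, e1⟩ := h3 (u + T u) (hT2 u)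
    obtain ⟨h', hh', e2⟩ := h4 (T y) (hT1 y)
    have e3 : S.q h z0 = S.q h' s0 := by rw [← e1, ← e2, S.symm]
    obtain ⟨m1, m2⟩ := X.meet hz0 hs0 hh hh' e3
    show S.q (T y) (u + T u) = S.z
    rw [e2]; exact m2
  let A : Submodule (ZMod 2) V :=
    { carrier := {x | ∀ u, C S x (u + T u)}
      add_mem' := fun h1 h2 u => (h1 u).add' (h2 u)
      zero_mem' := fun u => C.zero' _
      smul_mem' := by
        intro c x hx
        rcases ETC.zm c with rfl | rfl
        · rw [zero_smul]; exact fun u => C.zero' _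
        · rw [one_smul]; exact hx }
  let B : Submodule (ZMod 2) V :=
    { carrier := {x | ∀ u ∈ A, C S x u}
      add_mem' := fun h1 h2 u hu => (h1 u hu).add' (h2 u hu)
      zero_mem' := fun u _ => C.zero' _
      smul_mem' := by
        intro c x hx
        rcases ETC.zm c with rfl | rfl
        · rw [zero_smul]; exact fun u _ => C.zero' _
        · rw [one_smul]; exact hx }
  have hTA : ∀ y, T y ∈ A := fun y u => orth y u
  have hTB : ∀ y, y + T y ∈ B := fun y u hu => (hu y).symm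
  have hAB : ∀ x, x ∈ A → x ∈ B → x = 0 := by
    intro x hA hB
    apply hnd
    intro y
    exact ((hA y).add (hB (T y) (hTA y))).of_eq rfl (eo (by abel_nf <;> simp only [ch2, ch3, ch4, ch5, ch6, add_zero, zero_add]))
  have hAT : ∀ x ∈ A, T x = x := by
    intro x hx
    have := hAB (x + T x) (A.add_mem hx (hTA x)) (hTB x)
    exact (eo this).symm
  have hcomm : ∀ a ∈ A, ∀ b ∈ B, C S a b := fun a ha b hb => (hb a ha).symm
  have hpart : ∀ a ∈ A, ∀ b ∈ B, T (a + b) = a := by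
    intro a ha b hb
    have h1 : T (a + b) + a ∈ A := A.add_mem (hTA _) ha
    have h2 : T (a + b) + a ∈ B := by
      have : T (a + b) + a = a + b + T (a + b) + b := (eo (by abel_nf <;> simp only [ch2, ch3, ch4, ch5, ch6, add_zero, zero_add]))
      rw [this]
      exact B.add_mem (hTB _) hb
    exact eo (hAB _ h1 h2)
  refine ⟨A, B, ?_, hcomm, ?_, ?_, ?_⟩
  · constructor
    · rw [Submodule.disjoint_def]
      exact hAB
    · rw [codisjoint_iff, eq_top_iff]
      intro x _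
      rw [Submodule.mem_sup]
      exact ⟨T x, hTA x, x + T x, hTB x, (eo (by abel_nf <;> simp only [ch2, ch3, ch4, ch5, ch6, add_zero, zero_add]))⟩
  · intro a ha b hb a' ha' b' hb' h
    have h1 := hT5 (a' + b') (a + b) h
    rw [hpart a' ha' b' hb'] at h1
    have h2 : C S a a' := (h1.add' (hcomm a' ha' b hb).symm).of_eq (eo (by abel_nf <;> simp only [ch2, ch3, ch4, ch5, ch6, add_zero, zero_add])) rfl
    refine ⟨h2, ?_⟩
    have h3 : C S (a + b) b' := (h.add h1).of_eq rfl (eo (by abel_nf <;> simp only [ch2, ch3, ch4, ch5, ch6, add_zero, zero_add]))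
    exact (h3.add' (hcomm a ha b' hb')).of_eq (eo (by abel_nf <;> simp only [ch2, ch3, ch4, ch5, ch6, add_zero, zero_add])) rfl
  · intro u
    exact hT2 u
  · intro x hx
    rw [← hAT x hx]
    exact hT1 x

end Ctx

end Pool.Agent.ETCP
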